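import Mathlib

namespace Pool.Agent.Results.MP_a163f2_lc.NoConsecutive

open Set

/-- Baire space. -/
abbrev Baire : Type := ℕ → ℕ

/-- `BSigma n α A` for `n ≥ 1`: the set `A` is a boldface Sigma-1-n subset of the space `α`.
For `n = 0` it means that `A` is open, and a set is boldface Sigma-1-(n+1) when it is the
projection along Baire space of the complement of a set in the class with index `n`. -/
def BSigma : ℕ → ∀ (α : Type) [TopologicalSpace α], Set α → Prop
  | 0, _, _, A => IsOpen A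
  | n + 1, α, _, A => ∃ B : Set (α × Baire), BSigma n (α × Baire) Bᶜ ∧ A = {x | ∃ y, (x, y) ∈ B}

/-- `BPi n α A` for `n ≥ 1`: the set `A` is a boldface Pi-1-n subset of `α`. -/
def BPi (n : ℕ) (α : Type) [TopologicalSpace α] (A : Set α) : Prop := BSigma n α Aᶜ

/-- The separation property of a class `Γ` of subsets of a set. -/
def Separation {X : Type} (Γ : Set X → Prop) : Prop :=
  ∀ A B : Set X, Γ A → Γ B → Disjoint A B → ∃ C, Γ C ∧ Γ Cᶜ ∧ A ⊆ C ∧ Disjoint C B

/-- The reduction property of a class `Γ` of subsets of a set. -/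
def Reduction {X : Type} (Γ : Set X → Prop) : Prop :=
  ∀ A B : Set X, Γ A → Γ B →
    ∃ A' B', Γ A' ∧ Γ B' ∧ A' ⊆ A ∧ B' ⊆ B ∧ Disjoint A' B' ∧ A' ∪ B' = A ∪ B

/-- The weak reduction property of a class `Γ`: as the reduction property, but only
the points of exactly one of the two sets have to be covered. -/
def WeakReduction {X : Type} (Γ : Set X → Prop) : Prop :=
  ∀ A B : Set X, Γ A → Γ B →
    ∃ A' B', Γ A' ∧ Γ B' ∧ A' ⊆ A ∧ B' ⊆ B ∧ Disjoint A' B' ∧ A \ B ⊆ A' ∧ B \ A ⊆ B'

/-! ### Pairing on Baire space -/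

/-- The even part of a real. -/
def lft (w : Baire) : Baire := fun k => w (2 * k)
/-- The odd part of a real. -/
def rgt (w : Baire) : Baire := fun k => w (2 * k + 1)
/-- The real with given even and odd parts. -/
def pr (p : Baire × Baire) : Baire := fun k => if k % 2 = 0 then p.1 (k / 2) else p.2 (k / 2)

lemma lft_pr (p : Baire × Baire) : lft (pr p) = p.1 := by
  funext k; simp [lft, pr]

lemma rgt_pr (p : Baire × Baire) : rgt (pr p) = p.2 := by
  funext k
  have h1 : (2 * k + 1) % 2 = 1 := by omega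
  have h2 : (2 * k + 1) / 2 = k := by omega
  simp [rgt, pr, h1, h2]

lemma continuous_lft : Continuous lft := continuous_pi fun _ => continuous_apply _
lemma continuous_rgt : Continuous rgt := continuous_pi fun _ => continuous_apply _
lemma continuous_pr : Continuous pr := by
  refine continuous_pi fun k => ?_
  by_cases h : k % 2 = 0
  · simp only [pr, h, if_true]
    exact (continuous_apply _).comp continuous_fst
  · simp only [pr, h, if_false]
    exact (continuous_apply _).comp continuous_snd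

/-! ### Closure properties of the projective classes -/

lemma BSigma.preimage : ∀ (n : ℕ) {α β : Type} [TopologicalSpace α] [TopologicalSpace β]
    {f : α → β} (_ : Continuous f) {A : Set β}, BSigma n β A → BSigma n α (f ⁻¹' A)
  | 0, _, _, _, _, _, hf, _, hA => IsOpen.preimage hf hA
  | n + 1, α, β, _, _, f, hf, A, hA => by
    obtain ⟨B, hB, rfl⟩ := hA
    have hc : Continuous (fun p : α × Baire => (f p.1, p.2)) := by fun_prop
    exact ⟨(fun p : α × Baire => (f p.1, p.2)) ⁻¹' B, BSigma.preimage n hc hB, rfl⟩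

lemma BPi.preimage (n : ℕ) {α β : Type} [TopologicalSpace α] [TopologicalSpace β]
    {f : α → β} (hf : Continuous f) {A : Set β} (hA : BPi n β A) : BPi n α (f ⁻¹' A) :=
  BSigma.preimage n hf hA

lemma BSigma.exists' : ∀ (n : ℕ) {α : Type} [TopologicalSpace α] {A : Set (α × Baire)},
    BSigma n (α × Baire) A → BSigma n α {x | ∃ y, (x, y) ∈ A}
  | 0, α, _, A, hA => by
    have h : {x : α | ∃ y, (x, y) ∈ A} = Prod.fst '' A := by
      ext x
      constructor
      · rintro ⟨y, hy⟩; exact ⟨(x, y), hy, rfl⟩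
      · rintro ⟨⟨x', y⟩, hy, rfl⟩; exact ⟨y, hy⟩
    rw [h]
    exact isOpenMap_fst A hA
  | n + 1, α, _, A, hA => by
    obtain ⟨B, hB, rfl⟩ := hA
    have hc : Continuous (fun p : α × Baire => ((p.1, lft p.2), rgt p.2)) := by
      have := continuous_lft
      have := continuous_rgt
      fun_prop
    refine ⟨(fun p : α × Baire => ((p.1, lft p.2), rgt p.2)) ⁻¹' B,
      BSigma.preimage n hc hB, ?_⟩
    ext x
    constructor
    · rintro ⟨y, z, h⟩
      refine ⟨pr (y, z), ?_⟩
      show ((x, lft (pr (y, z))), rgt (pr (y, z))) ∈ B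
      rw [lft_pr, rgt_pr]; exact h
    · rintro ⟨w, h⟩
      exact ⟨lft w, rgt w, h⟩

lemma BPi.forall' (n : ℕ) {α : Type} [TopologicalSpace α] {A : Set (α × Baire)}
    (hA : BPi n (α × Baire) A) : BPi n α {x | ∀ y, (x, y) ∈ A} := by
  have h := BSigma.exists' n (A := Aᶜ) hA
  have e : ({x : α | ∀ y, (x, y) ∈ A} : Set α)ᶜ = {x | ∃ y, (x, y) ∈ Aᶜ} := by
    ext x; simp
  show BSigma n α _
  rw [e]; exact h

/-- Universal sets. -/
lemma BSigma.universal : ∀ (n : ℕ) (α : Type) [TopologicalSpace α] [SecondCountableTopology α],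
    ∃ U : Set (Baire × α), BSigma n (Baire × α) U ∧
      ∀ A : Set α, BSigma n α A → ∃ a : Baire, A = {x | (a, x) ∈ U}
  | 0, α, _, _ => by
    obtain ⟨b, hbc, -, hb⟩ := TopologicalSpace.exists_countable_basis α
    have hne : (insert (∅ : Set α) b).Nonempty := ⟨∅, mem_insert _ _⟩
    obtain ⟨e, he⟩ := (hbc.insert (∅ : Set α)).exists_eq_range hne
    have hopen : ∀ i, IsOpen (e i) := by
      intro i
      have : e i ∈ insert (∅ : Set α) b := by rw [he]; exact mem_range_self i
      rcases this with h | h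
      · rw [h]; exact isOpen_empty
      · exact hb.isOpen h
    refine ⟨⋃ i : ℕ, {p : Baire × α | p.2 ∈ e (p.1 i)}, ?_, ?_⟩
    · show IsOpen _
      refine isOpen_iUnion fun i => ?_
      have : {p : Baire × α | p.2 ∈ e (p.1 i)} =
          ⋃ k : ℕ, ((fun a : Baire => a i) ⁻¹' {k}) ×ˢ (e k) := by
        ext ⟨a, x⟩
        simp
      rw [this]
      refine isOpen_iUnion fun k => ?_
      exact ((isOpen_discrete _).preimage (continuous_apply i)).prod (hopen k)
    · intro A hA
      have hA' : IsOpen A := hA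
      classical
      have hsub : ∀ i : ℕ, ∃ k : ℕ, e k = if e i ⊆ A then e i else ∅ := by
        intro i
        by_cases h : e i ⊆ A
        · exact ⟨i, by simp [h]⟩
        · have : (∅ : Set α) ∈ range e := by rw [← he]; exact mem_insert _ _
          obtain ⟨k, hk⟩ := this
          exact ⟨k, by simp [h, hk]⟩
      choose a ha using hsub
      refine ⟨a, ?_⟩
      ext x
      simp only [mem_iUnion, mem_ofPred_eq]
      constructor
      · intro hx
        obtain ⟨v, hv, hxv, hvA⟩ := hb.exists_subset_of_mem_open hx hA'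
        have : v ∈ range e := by rw [← he]; exact mem_insert_of_mem _ hv
        obtain ⟨i, rfl⟩ := this
        exact ⟨i, by rw [ha i, if_pos hvA]; exact hxv⟩
      · rintro ⟨i, hi⟩
        rw [ha i] at hi
        by_cases h : e i ⊆ A
        · rw [if_pos h] at hi; exact h hi
        · rw [if_neg h] at hi; exact hi.elim
  | n + 1, α, _, _ => by
    obtain ⟨U, hU, huniv⟩ := BSigma.universal n (α × Baire)
    have hc : Continuous (fun p : (Baire × α) × Baire => (p.1.1, (p.1.2, p.2))) := by fun_prop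
    refine ⟨{p | ∃ y, (p, y) ∈ (fun p : (Baire × α) × Baire => (p.1.1, (p.1.2, p.2))) ⁻¹' Uᶜ},
      ⟨_, ?_, rfl⟩, ?_⟩
    · have : ((fun p : (Baire × α) × Baire => (p.1.1, (p.1.2, p.2))) ⁻¹' Uᶜ)ᶜ =
          (fun p : (Baire × α) × Baire => (p.1.1, (p.1.2, p.2))) ⁻¹' U := by
        ext p; simp
      rw [this]
      exact BSigma.preimage n hc hU
    · rintro A ⟨B, hB, rfl⟩
      obtain ⟨a, ha⟩ := huniv _ hB
      refine ⟨a, ?_⟩
      ext x
      simp only [mem_ofPred_eq, mem_preimage, mem_compl_iff]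
      refine exists_congr fun y => ?_
      have : (x, y) ∈ Bᶜ ↔ (a, (x, y)) ∈ U := by rw [ha]; rfl
      rw [← this]
      simp

/-- Universal sets for the dual classes. -/
lemma BPi.universal (n : ℕ) (α : Type) [TopologicalSpace α] [SecondCountableTopology α] :
    ∃ W : Set (Baire × α), BPi n (Baire × α) W ∧
      ∀ A : Set α, BPi n α A → ∃ a : Baire, A = {x | (a, x) ∈ W} := by
  obtain ⟨U, hU, huniv⟩ := BSigma.universal n α
  refine ⟨Uᶜ, ?_, ?_⟩
  · show BSigma n _ Uᶜᶜ
    rw [compl_compl]; exact hU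
  · intro A hA
    obtain ⟨a, ha⟩ := huniv _ hA
    refine ⟨a, ?_⟩
    have : A = Aᶜᶜ := (compl_compl A).symm
    rw [this, ha]
    ext x; simp

/-! ### Reduction on other spaces -/

lemma reduction_transfer {n : ℕ} (h : Reduction (BPi n Baire)) {α : Type} [TopologicalSpace α]
    {f : α → Baire} {g : Baire → α} (hf : Continuous f) (hg : Continuous g)
    (hgf : ∀ a, g (f a) = a) : Reduction (BPi n α) := by
  intro A B hA hB
  obtain ⟨A', B', hA', hB', hAA, hBB, hd, hu⟩ :=
    h (g ⁻¹' A) (g ⁻¹' B) (BPi.preimage n hg hA) (BPi.preimage n hg hB)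
  refine ⟨f ⁻¹' A', f ⁻¹' B', BPi.preimage n hf hA', BPi.preimage n hf hB', ?_, ?_, ?_, ?_⟩
  · intro x hx
    have := hAA hx
    rw [mem_preimage, hgf] at this
    exact this
  · intro x hx
    have := hBB hx
    rw [mem_preimage, hgf] at this
    exact this
  · exact hd.preimage f
  · ext x
    have h1 : f x ∈ A' ∪ B' ↔ f x ∈ (g ⁻¹' A) ∪ (g ⁻¹' B) := by rw [hu]
    simp only [mem_union, mem_preimage, hgf] at h1 ⊢
    exact h1

lemma reduction_triple {n : ℕ} (h : Reduction (BPi n Baire)) :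
    Reduction (BPi n ((Baire × Baire) × Baire)) := by
  have h1 := continuous_lft
  have h2 := continuous_rgt
  have h3 := continuous_pr
  refine reduction_transfer h (f := fun p => pr (pr p.1, p.2))
    (g := fun w => ((lft (lft w), rgt (lft w)), rgt w)) ?_ ?_ ?_
  · fun_prop
  · fun_prop
  · rintro ⟨⟨x, y⟩, z⟩
    simp only [lft_pr, rgt_pr]

/-! ### The theorem -/

/-- Reduction for Pi-1-n gives weak reduction for Sigma-1-(n+1). -/
lemma weakReduction_succ {n : ℕ} (h : Reduction (BPi n Baire)) :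
    WeakReduction (BSigma (n + 1) Baire) := by
  rintro _ _ ⟨K, hK, rfl⟩ ⟨L, hL, rfl⟩
  have hK' : BPi n _ K := hK
  have hL' : BPi n _ L := hL
  have c1 : Continuous (fun p : (Baire × Baire) × Baire => (p.1.1, p.1.2)) := by fun_prop
  have c2 : Continuous (fun p : (Baire × Baire) × Baire => (p.1.1, p.2)) := by fun_prop
  obtain ⟨A, B, hA, hB, hAK, hBL, hd, hu⟩ := reduction_triple h _ _
    (BPi.preimage n c1 hK') (BPi.preimage n c2 hL')
  have c3 : Continuous (fun p : (Baire × Baire) × Baire => ((p.1.1, p.2), p.1.2)) := by fun_prop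
  refine ⟨{x | ∃ y, (x, y) ∈ {p : Baire × Baire | ∀ z, (p, z) ∈ A}},
    {x | ∃ z, (x, z) ∈ {p : Baire × Baire | ∀ y, (p, y) ∈
      (fun p : (Baire × Baire) × Baire => ((p.1.1, p.2), p.1.2)) ⁻¹' B}},
    ⟨_, BPi.forall' n hA, rfl⟩, ⟨_, BPi.forall' n (BPi.preimage n c3 hB), rfl⟩, ?_, ?_, ?_, ?_, ?_⟩
  · rintro x ⟨y, hy⟩
    exact ⟨y, hAK (hy y)⟩
  · rintro x ⟨z, hz⟩
    exact ⟨z, hBL (hz z)⟩
  · rw [Set.disjoint_left]
    rintro x ⟨y, hy⟩ ⟨z, hz⟩
    exact Set.disjoint_left.1 hd (hy z) (hz y)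
  · rintro x ⟨⟨y, hy⟩, hn⟩
    refine ⟨y, fun z => ?_⟩
    have hin : ((x, y), z) ∈ A ∪ B := by rw [hu]; exact Or.inl hy
    rcases hin with hin | hin
    · exact hin
    · exact (hn ⟨z, hBL hin⟩).elim
  · rintro x ⟨⟨z, hz⟩, hn⟩
    refine ⟨z, fun y => ?_⟩
    have hin : ((x, y), z) ∈ A ∪ B := by rw [hu]; exact Or.inr hz
    rcases hin with hin | hin
    · exact (hn ⟨y, hAK hin⟩).elim
    · exact hin

/-- Weak reduction for Sigma-1-n refutes separation for Sigma-1-n. -/
lemma not_separation {n : ℕ} (h : WeakReduction (BSigma n Baire)) :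
    ¬ Separation (BSigma n Baire) := by
  intro hs
  obtain ⟨U, hU, huniv⟩ := BSigma.universal n Baire
  have cl : Continuous (fun x : Baire => (lft x, x)) := by
    have := continuous_lft; fun_prop
  have cr : Continuous (fun x : Baire => (rgt x, x)) := by
    have := continuous_rgt; fun_prop
  obtain ⟨P, Q, hP, hQ, -, -, hd, hPc, hQc⟩ :=
    h _ _ (BSigma.preimage n cl hU) (BSigma.preimage n cr hU)
  obtain ⟨C, hC, hC', hPC, hCQ⟩ := hs P Q hP hQ hd
  obtain ⟨a, ha⟩ := huniv _ hC'
  obtain ⟨b, hb⟩ := huniv _ hC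
  -- the diagonal point
  have ha' : ∀ x, x ∈ Cᶜ ↔ (a, x) ∈ U := fun x => by rw [ha]; rfl
  have hb' : ∀ x, x ∈ C ↔ (b, x) ∈ U := fun x => by
    constructor
    · intro hx; rw [hb] at hx; exact hx
    · intro hx; rw [hb]; exact hx
  by_cases hx : pr (a, b) ∈ C
  · have h1 : (b, pr (a, b)) ∈ U := (hb' _).1 hx
    have h2 : (a, pr (a, b)) ∉ U := fun hh => ((ha' _).2 hh) hx
    have : pr (a, b) ∈ Q := by
      apply hQc
      refine ⟨?_, ?_⟩
      · show (rgt (pr (a, b)), pr (a, b)) ∈ U
        rw [rgt_pr]; exact h1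
      · show ¬ (lft (pr (a, b)), pr (a, b)) ∈ U
        rw [lft_pr]; exact h2
    exact Set.disjoint_left.1 hCQ hx this
  · have h1 : (a, pr (a, b)) ∈ U := (ha' _).1 hx
    have h2 : (b, pr (a, b)) ∉ U := fun hh => hx ((hb' _).2 hh)
    have : pr (a, b) ∈ P := by
      apply hPc
      refine ⟨?_, ?_⟩
      · show (lft (pr (a, b)), pr (a, b)) ∈ U
        rw [lft_pr]; exact h1
      · show ¬ (rgt (pr (a, b)), pr (a, b)) ∈ U
        rw [rgt_pr]; exact h2
    exact hx (hPC this)

/-- Reduction for Pi-1-n gives separation for Sigma-1-n. -/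
lemma separation_of_reduction {n : ℕ} (h : Reduction (BPi n Baire)) :
    Separation (BSigma n Baire) := by
  intro A B hA hB hd
  obtain ⟨A', B', hA', hB', hAA, hBB, hd', hu⟩ := h Aᶜ Bᶜ
    (by show BSigma n _ Aᶜᶜ; rw [compl_compl]; exact hA)
    (by show BSigma n _ Bᶜᶜ; rw [compl_compl]; exact hB)
  have huniv : A' ∪ B' = univ := by
    rw [hu, ← compl_inter, hd.inter_eq, compl_empty]
  have hc : B'ᶜ = A' := by
    ext x
    constructor
    · intro hx
      rcases (huniv ▸ mem_univ x : x ∈ A' ∪ B') with h1 | h1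
      · exact h1
      · exact (hx h1).elim
    · intro hx hx'
      exact Set.disjoint_left.1 hd' hx hx'
  have hc' : A'ᶜ = B' := by rw [← hc, compl_compl]
  refine ⟨B', ?_, ?_, ?_, ?_⟩
  · rw [← hc']; exact hA'
  · exact hB'
  · intro x hx
    rw [← hc']
    exact fun hx' => hAA hx' hx
  · rw [Set.disjoint_left]
    intro x hx hx'
    exact hBB hx hx'

theorem result :
    (∀ n : ℕ, Reduction (BPi n Baire) →
      WeakReduction (BSigma (n + 1) Baire) ∧ ¬ Separation (BSigma (n + 1) Baire) ∧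
        ¬ Reduction (BPi (n + 1) Baire)) := by
  intro n h
  have h1 := weakReduction_succ h
  have h2 := not_separation h1
  exact ⟨h1, h2, fun h3 => h2 (separation_of_reduction h3)⟩

end Pool.Agent.Results.MP_a163f2_lc.NoConsecutive
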