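import Pool.Agent.H.MP_a163f2_lc.PowDefs
import Pool.Agent.H.MP_a163f2_lc.E.E6
import Pool.Agent.H.MP_a163f2_lc.E.Pw
import Pool.Agent.H.MP_a163f2_lc.L.Ground

/-!
# MP_a163f2_lc: boldface Sigma-1-3-separation without Pi-1-n-reduction, for all n ≥ 3

The full (positive) answer to Q2, and hence to Q1.
-/

namespace Pool.Agent.Results.MP_a163f2_lc.SeparationNoReduction

open Pool.Agent.H.MP_a163f2_lc

/-- There is a transitive model `N` of ZFC in which boldface Sigma-1-3-separation holds and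
boldface Pi-1-n-reduction fails for every `n ≥ 3` simultaneously, in every finite power
(with exponent `m ≥ 1`) of Baire space. -/
theorem result : ∃ N : Set ZFSet.{0}, Trans N ∧ ZFC N ∧
    (∀ m ≥ 1, SepG (Pow (Reals N) m) (SigM (Reals N) 3 m)) ∧
    ∀ n ≥ 3, ∀ m ≥ 1, ¬ RedG (PiM (Reals N) n m) := by
  obtain ⟨N, hT, hZ, hs, hr⟩ := main_of_ground ground_statement
  have hR : RC (Reals N) := RC_Reals hT
  refine ⟨N, hT, hZ, fun m hm => ?_, fun n hn m hm h => ?_⟩
  · obtain ⟨k, rfl⟩ := Nat.exists_eq_add_of_le' hm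
    exact SepG_pow hR hs k
  · obtain ⟨k, rfl⟩ := Nat.exists_eq_add_of_le' hm
    exact hr n hn (RedG_pow hR h)

end Pool.Agent.Results.MP_a163f2_lc.SeparationNoReduction
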